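import Pool.Agent.X287.BP.Stm

/-! P3 of MP_32607b_nt: the sums of odd powers of `binom h p`, `p` an odd prime, modulo `p`, `p²`, `p³`. -/

open Finset Polynomial

namespace Pool.Agent.X144.BP

/-- `U_c(y) = ∏_{s ≤ c} (y + s) ∏_{s ≤ p-1-c} (y - s)` -/
noncomputable def U (p c : ℕ) : ℤ[X] :=
  (∏ s ∈ range c, (X + C ((s : ℤ) + 1))) * ∏ s ∈ range (p - 1 - c), (X - C ((s : ℤ) + 1))

/-- `R(y) = ∑_{c<p} U_c(y)^e` -/
noncomputable def R (p e : ℕ) : ℤ[X] := ∑ c ∈ range p, U p c ^ e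

lemma U_eval (p c : ℕ) (y : ℤ) : (U p c).eval y =
    (∏ s ∈ range c, (y + ((s : ℤ) + 1))) * ∏ s ∈ range (p - 1 - c), (y - ((s : ℤ) + 1)) := by
  simp only [U, eval_mul, eval_prod, eval_add, eval_sub, eval_X, eval_C]

lemma U_choose (p c b : ℕ) (hp : 1 ≤ p) (hc : c < p) :
    (b : ℤ) * (U p c).eval ((p : ℤ) * b) = ((p - 1).factorial : ℤ) * ((p * b + c).choose p : ℕ) := by
  have h1 : (((p * b + c).descFactorial p : ℕ) : ℤ)
      = ∏ j ∈ range p, (((p * b + c : ℕ) : ℤ) - (j : ℤ)) := by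
    rw [← descPochhammer_eval_eq_descFactorial ℤ, descPochhammer_eval_eq_prod_range]
  have h2 : ∏ j ∈ range p, (((p * b + c : ℕ) : ℤ) - (j : ℤ))
      = (p : ℤ) * b * (U p c).eval ((p : ℤ) * b) := by
    have hsplit : p = c + (1 + (p - 1 - c)) := by omega
    rw [U_eval]
    conv_lhs => rw [hsplit]
    rw [prod_range_add, prod_range_add, prod_range_one]
    have e1 : ∏ j ∈ range c, ((((c + (1 + (p - 1 - c))) * b + c : ℕ) : ℤ) - (j : ℤ))
        = ∏ s ∈ range c, ((p : ℤ) * b + ((s : ℤ) + 1)) := by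
      rw [← hsplit, ← prod_range_reflect]
      apply prod_congr rfl
      intro j hj
      rw [mem_range] at hj
      have : ((c - 1 - j : ℕ) : ℤ) = (c : ℤ) - 1 - j := by omega
      rw [this]; push_cast; ring
    have e2 : ((((c + (1 + (p - 1 - c))) * b + c : ℕ) : ℤ) - ((c + 0 : ℕ) : ℤ)) = (p : ℤ) * b := by
      rw [← hsplit]; push_cast; ring
    have e3 : ∏ x ∈ range (p - 1 - c), ((((c + (1 + (p - 1 - c))) * b + c : ℕ) : ℤ)
          - ((c + (1 + x) : ℕ) : ℤ))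
        = ∏ s ∈ range (p - 1 - c), ((p : ℤ) * b - ((s : ℤ) + 1)) := by
      rw [← hsplit]
      apply prod_congr rfl
      intro j _
      push_cast; ring
    rw [e1, e2, e3]; ring
  have h3 : (((p * b + c).descFactorial p : ℕ) : ℤ)
      = (p : ℤ) * ((p - 1).factorial : ℤ) * ((p * b + c).choose p : ℕ) := by
    rw [Nat.descFactorial_eq_factorial_mul_choose, ← Nat.mul_factorial_pred (by omega : p ≠ 0)]
    push_cast; ring
  have hp0 : (p : ℤ) ≠ 0 := by exact_mod_cast (by omega : p ≠ 0)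
  apply mul_left_cancel₀ hp0
  rw [← mul_assoc, ← h2, ← h1, h3]; ring

lemma R_even (p e : ℕ) (hp : Odd p) (y : ℤ) : (R p e).eval (-y) = (R p e).eval y := by
  simp only [R, eval_finsetSum, eval_pow]
  rw [← sum_range_reflect]
  apply sum_congr rfl
  intro c hc
  rw [mem_range] at hc
  congr 1
  rw [U_eval, U_eval]
  have h1 : p - 1 - (p - 1 - c) = c := by omega
  rw [h1]
  have e1 : ∏ s ∈ range (p - 1 - c), (-y + ((s : ℤ) + 1))
      = (-1) ^ (p - 1 - c) * ∏ s ∈ range (p - 1 - c), (y - ((s : ℤ) + 1)) := by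
    have : ∀ s ∈ range (p - 1 - c), (-y + ((s : ℤ) + 1)) = (-1) * (y - ((s : ℤ) + 1)) := by
      intro s _; ring
    rw [prod_congr rfl this, prod_mul_distrib, prod_const, card_range]
  have e2 : ∏ s ∈ range c, (-y - ((s : ℤ) + 1))
      = (-1) ^ c * ∏ s ∈ range c, (y + ((s : ℤ) + 1)) := by
    have : ∀ s ∈ range c, (-y - ((s : ℤ) + 1)) = (-1) * (y + ((s : ℤ) + 1)) := by
      intro s _; ring
    rw [prod_congr rfl this, prod_mul_distrib, prod_const, card_range]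
  rw [e1, e2]
  have h2 : (-1 : ℤ) ^ (p - 1 - c) * (-1) ^ c = 1 := by
    rw [← pow_add]
    have : Even (p - 1 - c + c) := by
      obtain ⟨k, hk⟩ := hp
      exact ⟨k, by omega⟩
    exact this.neg_one_pow
  linear_combination ((∏ s ∈ range (p - 1 - c), (y - ((s : ℤ) + 1))) *
    ∏ s ∈ range c, (y + ((s : ℤ) + 1))) * h2

/-- `R(pb) = R(0) + r p² b²` modulo `p³` -/
lemma R_exp (p e : ℕ) (hp : Odd p) : ∃ r : ℤ, ∀ y : ℤ, ∃ k : ℤ,
    (R p e).eval ((p : ℤ) * y) = (R p e).eval 0 + r * p ^ 2 * y ^ 2 + k * p ^ 3 := by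
  have hcomp : (R p e).comp (C (-1) * X) = R p e := by
    apply Polynomial.funext
    intro y
    rw [eval_comp, eval_mul, eval_C, eval_X]
    simpa using R_even p e hp y
  have h1 : (R p e).coeff 1 = 0 := by
    have := congrArg (fun q => Polynomial.coeff q 1) hcomp
    simp only [comp_C_mul_X_coeff] at this
    linarith
  set Q := R p e with hQ
  have ha : Q = divX Q * X + C (Q.coeff 0) := (divX_mul_X_add Q).symm
  have hb : divX Q = divX (divX Q) * X + C ((divX Q).coeff 0) := (divX_mul_X_add _).symm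
  have hc : divX (divX Q) = divX (divX (divX Q)) * X + C ((divX (divX Q)).coeff 0) :=
    (divX_mul_X_add _).symm
  have h1' : (divX Q).coeff 0 = 0 := by rw [coeff_divX]; exact h1
  refine ⟨(divX (divX Q)).coeff 0, fun y => ⟨(divX (divX (divX Q))).eval ((p : ℤ) * y) * y ^ 3, ?_⟩⟩
  have e0 : Q.eval 0 = Q.coeff 0 := by rw [← coeff_zero_eq_eval_zero]
  have ea : Q.eval ((p : ℤ) * y) = (divX Q).eval ((p : ℤ) * y) * ((p : ℤ) * y) + Q.coeff 0 := by
    conv_lhs => rw [ha]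
    simp only [eval_add, eval_mul, eval_X, eval_C]
  have eb : (divX Q).eval ((p : ℤ) * y) = (divX (divX Q)).eval ((p : ℤ) * y) * ((p : ℤ) * y) := by
    conv_lhs => rw [hb]
    simp only [eval_add, eval_mul, eval_X, eval_C, h1', add_zero]
  have ec : (divX (divX Q)).eval ((p : ℤ) * y) = (divX (divX (divX Q))).eval ((p : ℤ) * y)
      * ((p : ℤ) * y) + (divX (divX Q)).coeff 0 := by
    conv_lhs => rw [hc]
    simp only [eval_add, eval_mul, eval_X, eval_C]
  rw [ea, eb, ec, e0]; ring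

/-- the sum over `h < pu` in blocks -/
lemma S_blocks (p e u : ℕ) (hp : 1 ≤ p) :
    (((p - 1).factorial : ℤ)) ^ e * (Pool.Agent.X287.BP.S p e (p * u) : ℤ)
      = ∑ b ∈ range u, (b : ℤ) ^ e * (R p e).eval ((p : ℤ) * b) := by
  induction u with
  | zero => simp [Pool.Agent.X287.BP.S]
  | succ u ih =>
    have : (Pool.Agent.X287.BP.S p e (p * (u + 1)) : ℤ)
        = (Pool.Agent.X287.BP.S p e (p * u) : ℤ) +
          ∑ c ∈ range p, (((p * u + c).choose p : ℕ) : ℤ) ^ e := by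
      unfold Pool.Agent.X287.BP.S
      rw [Nat.mul_succ, sum_range_add]
      push_cast; rfl
    rw [this, mul_add, ih, sum_range_succ]
    congr 1
    simp only [R, eval_finsetSum, eval_pow]
    rw [mul_sum, mul_sum]
    apply sum_congr rfl
    intro c hc
    rw [mem_range] at hc
    rw [← mul_pow, ← mul_pow, U_choose p c u hp hc]

lemma U_zero_mul (p c : ℕ) (hp : Odd p) (hc : c < p) :
    (U p c).eval 0 * ((-1) ^ c * ((p - 1).choose c : ℤ)) = ((p - 1).factorial : ℤ) := by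
  rw [U_eval]
  have e1 : ∏ s ∈ range c, ((0 : ℤ) + ((s : ℤ) + 1)) = (c.factorial : ℤ) := by
    rw [← prod_range_add_one_eq_factorial]
    push_cast
    apply prod_congr rfl
    intro s _; ring
  have e2 : ∏ s ∈ range (p - 1 - c), ((0 : ℤ) - ((s : ℤ) + 1))
      = (-1) ^ (p - 1 - c) * ((p - 1 - c).factorial : ℤ) := by
    have : ∀ s ∈ range (p - 1 - c), ((0 : ℤ) - ((s : ℤ) + 1)) = (-1) * ((s : ℤ) + 1) := by
      intro s _; ring
    rw [prod_congr rfl this, prod_mul_distrib, prod_const, card_range,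
      ← prod_range_add_one_eq_factorial]
    push_cast; rfl
  rw [e1, e2]
  have h2 : (-1 : ℤ) ^ (p - 1 - c) * (-1) ^ c = 1 := by
    rw [← pow_add]
    have : Even (p - 1 - c + c) := by
      obtain ⟨k, hk⟩ := hp
      exact ⟨k, by omega⟩
    exact this.neg_one_pow
  have h3 : ((p - 1).choose c : ℤ) * (c.factorial : ℤ) * ((p - 1 - c).factorial : ℤ)
      = ((p - 1).factorial : ℤ) := by
    exact_mod_cast Nat.choose_mul_factorial_mul_factorial (by omega : c ≤ p - 1)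
  rw [← h3]
  linear_combination ((p - 1).choose c : ℤ) * (c.factorial : ℤ) * ((p - 1 - c).factorial : ℤ) * h2

lemma w_one (p : ℕ) (hp : p.Prime) (c : ℕ) (hc : c < p) :
    (p : ℤ) ∣ (-1) ^ c * ((p - 1).choose c : ℤ) - 1 := by
  induction c with
  | zero => simp
  | succ c ih =>
    have h1 := ih (by omega)
    have h2 : p.choose (c + 1) = (p - 1).choose c + (p - 1).choose (c + 1) := by
      have : p = (p - 1) + 1 := by omega
      conv_lhs => rw [this]
      exact Nat.choose_succ_succ _ _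
    have h3 : (p : ℤ) ∣ (p.choose (c + 1) : ℤ) := by
      exact_mod_cast hp.dvd_choose_self (by omega) hc
    have h4 : (-1 : ℤ) ^ (c + 1) * ((p - 1).choose (c + 1) : ℤ) - 1
        = ((-1) ^ c * ((p - 1).choose c : ℤ) - 1) + (-1) ^ (c + 1) * (p.choose (c + 1) : ℤ) := by
      rw [h2]; push_cast; ring
    rw [h4]
    exact dvd_add h1 (Dvd.dvd.mul_left h3 _)

lemma U_zero_mod (p c : ℕ) (hp : p.Prime) (hodd : Odd p) (hc : c < p) :
    (p : ℤ) ∣ (U p c).eval 0 - ((p - 1).factorial : ℤ) := by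
  obtain ⟨k, hk⟩ := w_one p hp c hc
  refine ⟨-((U p c).eval 0 * k), ?_⟩
  rw [← U_zero_mul p c hodd hc]
  linear_combination (-(U p c).eval 0) * hk

lemma R_zero_mod (p e : ℕ) (hp : p.Prime) (hodd : Odd p) : (p : ℤ) ∣ (R p e).eval 0 := by
  have h1 : (R p e).eval 0 = ∑ c ∈ range p, ((U p c).eval 0 ^ e - ((p - 1).factorial : ℤ) ^ e)
      + p * ((p - 1).factorial : ℤ) ^ e := by
    simp only [R, eval_finsetSum, eval_pow, sum_sub_distrib, sum_const, card_range, nsmul_eq_mul]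
    ring
  rw [h1]
  apply dvd_add
  · apply dvd_sum
    intro c hc
    rw [mem_range] at hc
    exact (U_zero_mod p c hp hodd hc).trans (sub_dvd_pow_sub_pow _ _ _)
  · exact Dvd.intro _ rfl

lemma coprime_fact (p : ℕ) (hp : p.Prime) (k e : ℕ) :
    IsCoprime ((p : ℤ) ^ k) (((p - 1).factorial : ℤ) ^ e) := by
  apply IsCoprime.pow
  apply Nat.isCoprime_iff_coprime.2
  rw [Nat.Prime.coprime_iff_not_dvd hp, hp.dvd_factorial]
  have := hp.one_lt
  omega

lemma R_zero_mod_sq (p : ℕ) (hp : p.Prime) (hodd : Odd p) :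
    ((p : ℤ) ^ 2) ∣ (R p (2 * p - 1)).eval 0 := by
  have hp1 := hp.one_lt
  have h3 : 3 ≤ p := by
    rcases hodd with ⟨k, hk⟩; omega
  have key : ((p : ℤ) ^ 2) ∣ ((p - 1).factorial : ℤ) ^ 1 * (R p (2 * p - 1)).eval 0 := by
    have h0 : ∑ c ∈ range p, ((-1 : ℤ) ^ c * ((p - 1).choose c : ℤ)) = 0 := by
      have h := @Int.alternating_sum_range_choose (p - 1)
      rw [if_neg (by omega), Nat.sub_add_cancel (by omega)] at h
      exact_mod_cast h
    have h1 : ((p - 1).factorial : ℤ) ^ 1 * (R p (2 * p - 1)).eval 0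
        = ∑ c ∈ range p, ((-1 : ℤ) ^ c * ((p - 1).choose c : ℤ)) *
            ((U p c).eval 0 ^ (2 * p) - ((p - 1).factorial : ℤ) ^ (2 * p)) := by
      have h2 : ∑ c ∈ range p, ((-1 : ℤ) ^ c * ((p - 1).choose c : ℤ)) *
            ((U p c).eval 0 ^ (2 * p) - ((p - 1).factorial : ℤ) ^ (2 * p))
          = ∑ c ∈ range p, ((-1 : ℤ) ^ c * ((p - 1).choose c : ℤ)) * (U p c).eval 0 ^ (2 * p)
            - (∑ c ∈ range p, ((-1 : ℤ) ^ c * ((p - 1).choose c : ℤ))) *
              ((p - 1).factorial : ℤ) ^ (2 * p) := by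
        rw [sum_mul, ← sum_sub_distrib]
        apply sum_congr rfl
        intro c _; ring
      rw [h2, h0, zero_mul, sub_zero]
      simp only [R, eval_finsetSum, eval_pow, pow_one, mul_sum]
      apply sum_congr rfl
      intro c hc
      rw [mem_range] at hc
      have h4 : 2 * p = (2 * p - 1) + 1 := by omega
      conv_rhs => rw [h4, pow_succ]
      rw [← U_zero_mul p c hodd hc]
      ring
    rw [h1]
    apply dvd_sum
    intro c hc
    rw [mem_range] at hc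
    apply Dvd.dvd.mul_left
    have h5 := dvd_sub_pow_of_dvd_sub (U_zero_mod p c hp hodd hc) 1
    rw [pow_one] at h5
    have h6 : (U p c).eval 0 ^ (2 * p) - ((p - 1).factorial : ℤ) ^ (2 * p)
        = ((U p c).eval 0 ^ p - ((p - 1).factorial : ℤ) ^ p) *
          ((U p c).eval 0 ^ p + ((p - 1).factorial : ℤ) ^ p) := by
      rw [two_mul, pow_add, pow_add]; ring
    rw [h6]
    exact Dvd.dvd.mul_right h5 _
  exact (coprime_fact p hp 2 1).dvd_of_dvd_mul_left key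

/-- reflection of the power sum -/
lemma T_refl (e n : ℕ) (he : e ≠ 0) :
    2 * ∑ b ∈ range n, (b : ℤ) ^ e + (n : ℤ) ^ e
      = ∑ b ∈ range n, ((b : ℤ) ^ e + ((n : ℤ) - b) ^ e) := by
  rw [sum_add_distrib]
  have h1 : ∑ b ∈ range n, ((n : ℤ) - b) ^ e = ∑ b ∈ range n, ((b : ℤ) + 1) ^ e := by
    rw [← sum_range_reflect]
    apply sum_congr rfl
    intro j hj
    rw [mem_range] at hj
    have : ((n - 1 - j : ℕ) : ℤ) = (n : ℤ) - 1 - j := by omega
    rw [this]; congr 1; ring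
  have h2 : ∑ b ∈ range n, ((b : ℤ) + 1) ^ e = ∑ b ∈ range n, (b : ℤ) ^ e + (n : ℤ) ^ e := by
    have h3 := sum_range_succ (fun b : ℕ => (b : ℤ) ^ e) n
    have h4 := sum_range_succ' (fun b : ℕ => (b : ℤ) ^ e) n
    rw [h3] at h4
    simp only [Nat.cast_zero, zero_pow he, add_zero, Nat.cast_add, Nat.cast_one] at h4
    exact h4.symm
  rw [h1, h2]; ring

lemma two_coprime (p k : ℕ) (hodd : Odd p) : IsCoprime ((p : ℤ) ^ k) (2 : ℤ) := by
  apply IsCoprime.pow_left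
  have : IsCoprime (p : ℤ) ((2 : ℕ) : ℤ) :=
    Nat.isCoprime_iff_coprime.2 (Nat.coprime_two_right.2 hodd)
  exact_mod_cast this

lemma T_mod (p e u : ℕ) (hodd : Odd p) (he : Odd e) :
    (p : ℤ) ∣ ∑ b ∈ range (p * u), (b : ℤ) ^ e := by
  have h0 : e ≠ 0 := by rintro rfl; simp at he
  have h1 := T_refl e (p * u) h0
  have hpn : (p : ℤ) ∣ ((p * u : ℕ) : ℤ) := by push_cast; exact Dvd.intro _ rfl
  have h2 : (p : ℤ) ∣ ∑ b ∈ range (p * u), ((b : ℤ) ^ e + (((p * u : ℕ) : ℤ) - b) ^ e) := by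
    apply dvd_sum
    intro b _
    have := he.add_dvd_pow_add_pow (b : ℤ) (((p * u : ℕ) : ℤ) - b)
    rw [add_sub_cancel] at this
    exact hpn.trans this
  rw [← h1] at h2
  have h3 : (p : ℤ) ∣ 2 * ∑ b ∈ range (p * u), (b : ℤ) ^ e :=
    (dvd_add_left (Dvd.dvd.pow hpn h0)).1 h2
  have h4 := two_coprime p 1 hodd
  rw [pow_one] at h4
  exact h4.dvd_of_dvd_mul_left h3

lemma zmod_sum (p k : ℕ) [Fact p.Prime] :
    ∑ b ∈ range p, ((b : ℕ) : ZMod p) ^ k = ∑ x : ZMod p, x ^ k := by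
  symm
  refine Finset.sum_bij' (fun (x : ZMod p) _ => x.val) (fun b _ => (b : ZMod p)) ?_ ?_ ?_ ?_ ?_
  · intro x _; exact mem_range.2 (ZMod.val_lt x)
  · intro b _; exact mem_univ _
  · intro x _; exact ZMod.natCast_zmod_val x
  · intro b hb; exact ZMod.val_cast_of_lt (mem_range.1 hb)
  · intro x _; rw [ZMod.natCast_zmod_val]

lemma pow_sum_mod (p k : ℕ) (hp : p.Prime) (h1 : p - 1 < k) (h2 : k < 2 * (p - 1)) :
    (p : ℤ) ∣ ∑ b ∈ range p, (b : ℤ) ^ k := by
  have : Fact p.Prime := ⟨hp⟩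
  rw [← ZMod.intCast_zmod_eq_zero_iff_dvd]
  push_cast
  rw [zmod_sum]
  have : ∀ x : ZMod p, x ^ k = x ^ (k - (p - 1)) := by
    intro x
    by_cases hx : x = 0
    · rw [hx, zero_pow (by omega), zero_pow (by omega)]
    · have h3 : k = (k - (p - 1)) + (p - 1) := by omega
      conv_lhs => rw [h3, pow_add, ZMod.pow_card_sub_one_eq_one hx, mul_one]
  simp only [this]
  apply FiniteField.sum_pow_lt_card_sub_one
  rw [ZMod.card]; omega

/-- modulo `p²` -/
lemma T_mod_sq (p e : ℕ) (hp : p.Prime) (hodd : Odd p) (he : Odd e) (h1 : p ≤ e)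
    (h2 : e < 2 * p - 1) : ((p : ℤ) ^ 2) ∣ ∑ b ∈ range p, (b : ℤ) ^ e := by
  have hp1 := hp.one_lt
  have h0 : e ≠ 0 := by omega
  have hr := T_refl e p h0
  have h3 : ∀ b : ℕ, ∃ k : ℤ, (b : ℤ) ^ e + ((p : ℤ) - b) ^ e
      = e * (b : ℤ) ^ (e - 1) * p + k * (p : ℤ) ^ 2 := by
    intro b
    obtain ⟨k, hk⟩ := Polynomial.powAddExpansion (-(b : ℤ)) (p : ℤ) e
    refine ⟨k, ?_⟩
    have h4 : (-(b : ℤ)) ^ e = -(b : ℤ) ^ e := he.neg_pow _
    have h5 : (-(b : ℤ)) ^ (e - 1) = (b : ℤ) ^ (e - 1) := by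
      apply Even.neg_pow
      rcases he with ⟨j, hj⟩
      exact ⟨j, by omega⟩
    rw [h4, h5] at hk
    have h6 : (p : ℤ) - b = -(b : ℤ) + p := by ring
    rw [h6, hk]; ring
  choose k hk using h3
  have h4 : ∑ b ∈ range p, ((b : ℤ) ^ e + ((p : ℤ) - b) ^ e)
      = (e : ℤ) * p * ∑ b ∈ range p, (b : ℤ) ^ (e - 1) + (∑ b ∈ range p, k b) * (p : ℤ) ^ 2 := by
    rw [sum_congr rfl (fun b _ => hk b), sum_add_distrib, mul_sum, sum_mul]
    congr 1
    apply sum_congr rfl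
    intro b _; ring
  have h5 : ((p : ℤ) ^ 2) ∣ (e : ℤ) * p * ∑ b ∈ range p, (b : ℤ) ^ (e - 1) := by
    rcases Nat.lt_or_ge p e with h | h
    · have h6 : e ≠ p + 1 := by
        rintro rfl
        rcases he with ⟨j, hj⟩
        rcases hodd with ⟨i, hi⟩
        omega
      obtain ⟨q, hq⟩ := pow_sum_mod p (e - 1) hp (by omega) (by omega)
      exact ⟨e * q, by rw [hq]; ring⟩
    · have h6 : e = p := le_antisymm h h1
      rw [h6]
      exact ⟨∑ b ∈ range p, (b : ℤ) ^ (p - 1), by ring⟩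
  have h6 : ((p : ℤ) ^ 2) ∣ 2 * ∑ b ∈ range p, (b : ℤ) ^ e + (p : ℤ) ^ e := by
    rw [hr, h4]
    exact dvd_add h5 (Dvd.intro_left _ rfl)
  have h7 : ((p : ℤ) ^ 2) ∣ 2 * ∑ b ∈ range p, (b : ℤ) ^ e :=
    (dvd_add_left (pow_dvd_pow _ (by omega))).1 h6
  exact (two_coprime p 2 hodd).dvd_of_dvd_mul_left h7

lemma odd_of (p : ℕ) (hp : p.Prime) (h2 : p ≠ 2) : Odd p := hp.odd_of_ne_two h2

theorem t_P3a : Pool.Agent.X287.BP.P3a := by
  intro p e u hp h2 he
  have hodd := odd_of p hp h2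
  have hF := S_blocks p e u hp.one_lt.le
  obtain ⟨r, hr⟩ := R_exp p e hodd
  have h3 : (p : ℤ) ^ 1 ∣ ((p - 1).factorial : ℤ) ^ e * (Pool.Agent.X287.BP.S p e (p * u) : ℤ) := by
    rw [hF, pow_one]
    apply dvd_sum
    intro b _
    obtain ⟨k, hk⟩ := hr b
    rw [hk]
    obtain ⟨q, hq⟩ := R_zero_mod p e hp hodd
    rw [hq]
    exact ⟨(b : ℤ) ^ e * (q + r * p * b ^ 2 + k * p ^ 2), by ring⟩
  have h4 := (coprime_fact p hp 1 e).dvd_of_dvd_mul_left h3
  rw [pow_one] at h4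
  exact_mod_cast h4

theorem t_P3b : Pool.Agent.X287.BP.P3b := by
  intro p e u hp h2 he
  have hodd := odd_of p hp h2
  have hF := S_blocks p e (p * u) hp.one_lt.le
  obtain ⟨r, hr⟩ := R_exp p e hodd
  choose k hk using hr
  have h3 : (p : ℤ) ^ 2 ∣
      ((p - 1).factorial : ℤ) ^ e * (Pool.Agent.X287.BP.S p e (p * (p * u)) : ℤ) := by
    rw [hF]
    have h4 : ∑ b ∈ range (p * u), (b : ℤ) ^ e * (R p e).eval ((p : ℤ) * b)
        = (R p e).eval 0 * ∑ b ∈ range (p * u), (b : ℤ) ^ e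
          + (p : ℤ) ^ 2 * ∑ b ∈ range (p * u), (b : ℤ) ^ e * (r * b ^ 2 + k b * p) := by
      rw [mul_sum, mul_sum, ← sum_add_distrib]
      apply sum_congr rfl
      intro b _
      rw [hk]; ring
    rw [h4]
    apply dvd_add _ (Dvd.intro _ rfl)
    rw [pow_two]
    exact mul_dvd_mul (R_zero_mod p e hp hodd) (T_mod p e u hodd he)
  have h4 := (coprime_fact p hp 2 e).dvd_of_dvd_mul_left h3
  have h5 : p ^ 2 * u = p * (p * u) := by ring
  rw [h5]
  exact_mod_cast h4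

theorem t_P3c : Pool.Agent.X287.BP.P3c := by
  intro p e hp h2 he h5 h6
  have hodd := odd_of p hp h2
  have hF := S_blocks p e p hp.one_lt.le
  obtain ⟨r, hr⟩ := R_exp p e hodd
  choose k hk using hr
  have h3 : (p : ℤ) ^ 3 ∣
      ((p - 1).factorial : ℤ) ^ e * (Pool.Agent.X287.BP.S p e (p * p) : ℤ) := by
    rw [hF]
    have h4 : ∑ b ∈ range p, (b : ℤ) ^ e * (R p e).eval ((p : ℤ) * b)
        = (R p e).eval 0 * ∑ b ∈ range p, (b : ℤ) ^ e
          + (r * (p : ℤ) ^ 2) * ∑ b ∈ range p, (b : ℤ) ^ (e + 2)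
          + (p : ℤ) ^ 3 * ∑ b ∈ range p, (b : ℤ) ^ e * k b := by
      rw [mul_sum, mul_sum, mul_sum, ← sum_add_distrib, ← sum_add_distrib]
      apply sum_congr rfl
      intro b _
      rw [hk]; ring
    rw [h4]
    apply dvd_add _ (Dvd.intro _ rfl)
    apply dvd_add
    · have h7 : e ≤ 2 * p - 1 := by omega
      rcases Nat.lt_or_ge e (2 * p - 1) with h | h
      · have h8 := mul_dvd_mul (R_zero_mod p e hp hodd) (T_mod_sq p e hp hodd he h5 h)
        have h9 : (p : ℤ) ^ 3 = p * p ^ 2 := by ring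
        rw [h9]; exact h8
      · have h10 : e = 2 * p - 1 := le_antisymm h7 h
        have h8 := T_mod p e 1 hodd he
        rw [mul_one] at h8
        have h9 := mul_dvd_mul (R_zero_mod_sq p hp hodd) h8
        rw [← h10] at h9
        have h11 : (p : ℤ) ^ 3 = p ^ 2 * p := by ring
        rw [h11]; exact h9
    · have h8 := T_mod p (e + 2) 1 hodd (by
        rcases he with ⟨j, hj⟩; exact ⟨j + 1, by omega⟩)
      rw [mul_one] at h8
      obtain ⟨q, hq⟩ := h8
      rw [hq]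
      exact ⟨r * q, by ring⟩
  have h4 := (coprime_fact p hp 3 e).dvd_of_dvd_mul_left h3
  have h5 : p ^ 2 = p * p := by ring
  rw [h5]
  exact_mod_cast h4

end Pool.Agent.X144.BP
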