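import Pool.Agent.X287.BP.Stm

/-! P4a of MP_32607b_nt: `s_p(a) v_p(e!) + e v_p(a!) ≤ v_p((ae)!)`. -/

namespace Pool.Agent.X144.BP

lemma v_add (p : ℕ) [Fact p.Prime] (x y : ℕ) :
    padicValNat p x.factorial + padicValNat p y.factorial ≤ padicValNat p (x + y).factorial := by
  rw [← padicValNat.mul (Nat.factorial_ne_zero _) (Nat.factorial_ne_zero _)]
  exact (padicValNat_dvd_iff_le (Nat.factorial_ne_zero _)).1
    (pow_padicValNat_dvd.trans (Nat.factorial_mul_factorial_dvd_factorial_add x y))

lemma v_mul (p : ℕ) [Fact p.Prime] (k e : ℕ) :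
    k * padicValNat p e.factorial ≤ padicValNat p (k * e).factorial := by
  induction k with
  | zero => simp
  | succ k ih =>
    have h := v_add p (k * e) e
    rw [Nat.succ_mul, Nat.succ_mul]
    omega

theorem t_P4a : Pool.Agent.X287.BP.P4a := by
  intro p a e hp
  have : Fact p.Prime := ⟨hp⟩
  induction a using Nat.strong_induction_on with
  | _ a ih =>
    rcases Nat.eq_zero_or_pos a with h0 | h0
    · subst h0; simp
    · have h1 := ih (a / p) (Nat.div_lt_self h0 hp.one_lt)
      have h2 : a = p * (a / p) + a % p := (Nat.div_add_mod a p).symm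
      have h3 : (Nat.digits p a).sum = a % p + (Nat.digits p (a / p)).sum := by
        rw [Nat.digits_def' hp.one_lt h0, List.sum_cons]
      have h4 : padicValNat p a.factorial = padicValNat p (a / p).factorial + a / p := by
        conv_lhs => rw [h2]
        rw [padicValNat_factorial_mul_add _ (Nat.mod_lt _ hp.pos), padicValNat_factorial_mul]
      have h5 : a * e = p * (a / p * e) + a % p * e := by
        conv_lhs => rw [h2]
        ring
      have h6 := v_add p (p * (a / p * e)) (a % p * e)
      have h7 := v_mul p (a % p) e
      have h8 : padicValNat p (p * (a / p * e)).factorial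
          = padicValNat p (a / p * e).factorial + a / p * e := padicValNat_factorial_mul _
      rw [h3, h4]
      rw [h5]
      calc (a % p + (Nat.digits p (a / p)).sum) * padicValNat p e.factorial
            + e * (padicValNat p (a / p).factorial + a / p)
          = a % p * padicValNat p e.factorial + ((Nat.digits p (a / p)).sum
              * padicValNat p e.factorial + e * padicValNat p (a / p).factorial) + a / p * e := by
            ring
        _ ≤ _ := by omega

/-- the valuation of the prefactor -/
lemma v_Cc (p a e : ℕ) (hp : p.Prime) :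
    (Nat.digits p a).sum * padicValNat p e.factorial + padicValNat p (a * e + 1)
      ≤ padicValNat p (Pool.Agent.X287.BP.Cc a e) := by
  have : Fact p.Prime := ⟨hp⟩
  have hdvd : a.factorial ^ e ∣ (a * e + 1).factorial := by
    have h1 : a.factorial ^ e ∣ (a * e).factorial := by
      induction e with
      | zero => simp
      | succ e ih =>
        rw [pow_succ, Nat.mul_succ]
        exact (mul_dvd_mul ih dvd_rfl).trans (Nat.factorial_mul_factorial_dvd_factorial_add _ _)
    exact h1.trans (Nat.factorial_dvd_factorial (Nat.le_succ _))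
  have h2 : padicValNat p (Pool.Agent.X287.BP.Cc a e)
      = padicValNat p (a * e + 1).factorial - e * padicValNat p a.factorial := by
    unfold Pool.Agent.X287.BP.Cc
    rw [padicValNat.div_of_dvd hdvd, padicValNat.pow]
  have h3 : padicValNat p (a * e + 1).factorial
      = padicValNat p (a * e + 1) + padicValNat p (a * e).factorial := by
    rw [Nat.factorial_succ, padicValNat.mul (Nat.succ_ne_zero _) (Nat.factorial_ne_zero _)]
  have h4 := t_P4a p a e hp
  rw [h2, h3]
  omega

/-- `p^k ∣ C` as soon as `k ≤ s_p(a) v_p(e!) + v_p(ae+1)` -/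
lemma Cc_dvd (p a e k : ℕ) (hp : p.Prime)
    (hk : k ≤ (Nat.digits p a).sum * padicValNat p e.factorial + padicValNat p (a * e + 1)) :
    p ^ k ∣ Pool.Agent.X287.BP.Cc a e := by
  have : Fact p.Prime := ⟨hp⟩
  exact (pow_dvd_pow p (hk.trans (v_Cc p a e hp))).trans pow_padicValNat_dvd

end Pool.Agent.X144.BP
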